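import Mathlib

set_option autoImplicit false

namespace Pool.Agent.Results.MP_0f9b8a_co.Counter

open MvPolynomial Finset Filter Topology

noncomputable def hh : MvPolynomial (Fin 2) ℚ := 10 ^ 15 * (X 1 * (X 1 + 1)) ^ 4
noncomputable def PP : MvPolynomial (Fin 2) ℚ := (X 0 * X 1 * (X 0 - 2) ^ 2 + (X 0 + X 1)) * hh
noncomputable def QQ : MvPolynomial (Fin 2) ℚ := (X 0 + X 1) * (1 + (X 0 - 2) ^ 2 * hh)

noncomputable def h (y : ℝ) : ℝ := 10 ^ 15 * (y * (y + 1)) ^ 4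
noncomputable def F (x y : ℝ) : ℝ :=
  (x * y * (x - 2) ^ 2 + (x + y)) * h y / ((x + y) * (1 + (x - 2) ^ 2 * h y))

lemma h1 {y : ℝ} (hy : 1 ≤ y) : 1 ≤ h y := by
  have : 1 ≤ (y * (y + 1)) ^ 4 := one_le_pow₀ (by nlinarith)
  unfold h; nlinarith

lemma F2 {y : ℝ} (hy : 1 ≤ y) : F 2 y = h y := by
  unfold F; field_simp; ring

lemma Fb {x y : ℝ} (hx : 1 ≤ x) (hy : 1 ≤ y) (h2 : 1 ≤ (x - 2) ^ 2) :
    x * y / (x + y) - x * y / (x + y) / (x - 2) ^ 2 ≤ F x y ∧ F x y ≤ x * y / (x + y) + 1 := by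
  have := h1 hy
  unfold F
  generalize h y = z at *
  generalize (x - 2) ^ 2 = w at *
  have a1 : 0 < x * y := by positivity
  have a2 : 1 ≤ w * z := by nlinarith
  constructor
  · rw [← sub_nonneg]
    have : (x * y * w + (x + y)) * z / ((x + y) * (1 + w * z)) - (x * y / (x + y) - x * y / (x + y) / w)
      = ((x + y) * z * w + x * y * (1 + w * (z - 1))) / ((x + y) * (1 + w * z) * w) := by
      field_simp; ring
    rw [this]
    have : 0 ≤ z - 1 := by linarith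
    positivity
  · rw [← sub_nonneg]
    have : x * y / (x + y) + 1 - (x * y * w + (x + y)) * z / ((x + y) * (1 + w * z))
      = (x * y + (x + y) * (1 + (w - 1) * z)) / ((x + y) * (1 + w * z)) := by
      field_simp; ring
    rw [this]
    have : 0 ≤ w - 1 := by linarith
    positivity

lemma Fpos {x y : ℝ} (hx : 1 ≤ x) (hy : 1 ≤ y) : 0 < F x y := by
  have := h1 hy
  unfold F; positivity

noncomputable def E (B : ℝ) (d : ℕ) : ℝ := B ^ ((d - 1) / 2) * if d % 2 = 0 then 10 else 1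

lemma E_mul {B : ℝ} (hB : 40 ≤ B) {a b : ℕ} (ha : 1 ≤ a) (hb : 1 ≤ b) :
    4 * (E B a * E B b) ≤ E B (a + b) := by
  have p : ∀ n, 0 < B ^ n := fun n => by positivity
  obtain ⟨i, rfl | rfl⟩ : ∃ i, a = 2 * i + 1 ∨ a = 2 * i + 2 := ⟨(a - 1) / 2, by omega⟩ <;>
  obtain ⟨j, rfl | rfl⟩ : ∃ i, b = 2 * i + 1 ∨ b = 2 * i + 2 := ⟨(b - 1) / 2, by omega⟩ <;> unfold E
  · rw [show (2 * i + 1 + (2 * j + 1) - 1) / 2 = i + j by omega, 
      if_pos (by omega : (2 * i + 1 + (2 * j + 1)) % 2 = 0)]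
    simp [pow_add]; nlinarith [mul_pos (p i) (p j)]
  · rw [show (2 * i + 1 + (2 * j + 2) - 1) / 2 = i + j + 1 by omega,
      if_neg (by omega : ¬ (2 * i + 1 + (2 * j + 2)) % 2 = 0), show (2 * j + 2 - 1) / 2 = j by omega]
    simp [pow_add]; nlinarith [mul_pos (p i) (p j)]
  · rw [show (2 * i + 2 + (2 * j + 1) - 1) / 2 = i + j + 1 by omega,
      if_neg (by omega : ¬ (2 * i + 2 + (2 * j + 1)) % 2 = 0), show (2 * i + 2 - 1) / 2 = i by omega]
    simp [pow_add]; nlinarith [mul_pos (p i) (p j)]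
  · rw [show (2 * i + 2 + (2 * j + 2) - 1) / 2 = i + j + 1 by omega,
      if_pos (by omega : (2 * i + 2 + (2 * j + 2)) % 2 = 0), show (2 * i + 2 - 1) / 2 = i by omega,
      show (2 * j + 2 - 1) / 2 = j by omega]
    simp [pow_add]; nlinarith [mul_pos (p i) (p j)]

section
variable {n : ℕ → ℝ} (n1 : n 1 = 1)
  (hn : ∀ d, 2 ≤ d → n d = ∑ a ∈ Ico 1 d, F a (d - a : ℕ) * n a * n (d - a))
include n1 hn

lemma npos (d : ℕ) : 1 ≤ d → 0 < n d := by
  induction d using Nat.strong_induction_on with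
  | _ d ih =>
  intro h
  rcases eq_or_lt_of_le h with rfl | h
  · simp [n1]
  rw [hn d h]
  refine sum_pos (fun a ha => ?_) ⟨1, by simp; omega⟩
  rw [mem_Ico] at ha
  exact mul_pos (mul_pos (Fpos (by exact_mod_cast ha.1) (by exact_mod_cast (by omega)))
    (ih a ha.2 ha.1)) (ih _ (by omega) (by omega))

lemma n2 : 1 ≤ n 2 ∧ n 2 ≤ 2 := by
  rw [hn 2 le_rfl]; simp [n1, F, h]; norm_num

lemma split (d : ℕ) : n (d + 3) = 10 ^ 15 * n 2 * ((d + 1) * (d + 2)) ^ 4 * n (d + 1) +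
    ∑ a ∈ (Ico 1 (d + 3)).erase 2, F a (d + 3 - a : ℕ) * n a * n (d + 3 - a) := by
  rw [hn (d + 3) (by omega), ← add_sum_erase _ _ (a := 2) (by simp)]
  congr 1
  rw [show d + 3 - 2 = d + 1 by omega, Nat.cast_ofNat, F2 (by simp), h]; push_cast; ring

lemma low (j : ℕ) : (10 ^ 15 * n 2) ^ j * ((2 * j).factorial : ℝ) ^ 4 ≤ n (2 * j + 1) := by
  induction j with
  | zero => simp [n1]
  | succ j ih =>
    have q := n2 n1 hn
    rw [show 2 * (j + 1) + 1 = 2 * j + 3 by ring, split n1 hn, show 2 * (j + 1) = 2 * j + 1 + 1 by ring]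
    refine le_add_of_le_of_nonneg ?_ (sum_nonneg fun a ha => ?_)
    · refine le_trans (le_of_eq ?_) (mul_le_mul_of_nonneg_left ih (by have := q.1; positivity))
      simp only [Nat.factorial_succ]; push_cast; ring
    · simp only [mem_erase, mem_Ico] at ha
      exact (mul_pos (mul_pos (Fpos (by exact_mod_cast ha.2.1) (by exact_mod_cast (by omega)))
        (npos n1 hn a ha.2.1)) (npos n1 hn _ (by omega))).le

lemma upp (d : ℕ) : n (d + 1) ≤ (2 - 1 / (d + 1)) * (E (10 ^ 15 * n 2) (d + 1) * (d.factorial : ℝ) ^ 4) := by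
  have q := n2 n1 hn
  induction d using Nat.strong_induction_on with
  | _ d ih =>
  rcases d with _ | _ | d
  · simp [n1, E]; norm_num
  · simp [E]; linarith
  set B := 10 ^ 15 * n 2 with hB
  have B0 : 40 ≤ B := by linarith
  have E0 : ∀ d, 0 < E B d := fun d => by unfold E; split_ifs <;> positivity
  have i2 : ∀ a, a < d + 2 → n (a + 1) ≤ 2 * (E B (a + 1) * (a.factorial : ℝ) ^ 4) := fun a ha =>
    (ih a ha).trans (mul_le_mul_of_nonneg_right (sub_le_self _ (by positivity))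
      (by have := E0 (a + 1); positivity))
  have e1 : E B (d + 3) = B * E B (d + 1) := by
    unfold E
    rw [show (d + 3 - 1) / 2 = (d + 1 - 1) / 2 + 1 by omega, show (d + 3) % 2 = (d + 1) % 2 by omega]
    ring
  have s1 : ∑ a ∈ (Ico 1 (d + 3)).erase 2, F a (d + 3 - a : ℕ) * n a * n (d + 3 - a) ≤
      ((Ico 1 (d + 3)).erase 2).card • ((d + 3) * (E B (d + 3) * ((d + 1).factorial : ℝ) ^ 4)) := by
    refine sum_le_card_nsmul _ _ _ fun a ha => ?_
    simp only [mem_erase, mem_Ico] at ha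
    obtain ⟨a, rfl⟩ : ∃ x, a = x + 1 := ⟨a - 1, by omega⟩
    obtain ⟨b, hb⟩ : ∃ b, a + b = d + 1 := ⟨d + 1 - a, by omega⟩
    rw [show d + 3 - (a + 1) = b + 1 by omega]
    have f1 := (Fb (x := (a + 1 : ℕ)) (y := (b + 1 : ℕ)) (by simp) (by simp) (by
      have : (1 : ℤ) ≤ ((a + 1 : ℕ) - 2) ^ 2 := by
        have : ((a + 1 : ℕ) - 2 : ℤ) ≠ 0 := by omega
        exact Int.add_one_le_of_lt (sq_pos_of_ne_zero this)
      exact_mod_cast this)).2
    have hb' : (a : ℝ) + b = d + 1 := by exact_mod_cast hb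
    have f2 : F (a + 1 : ℕ) (b + 1 : ℕ) ≤ d + 3 := f1.trans (by
      rw [← le_sub_iff_add_le, div_le_iff₀ (by positivity)]; push_cast
      have : (0 : ℝ) ≤ a := by positivity
      have : (0 : ℝ) ≤ b := by positivity
      nlinarith)
    have f3 : (a.factorial : ℝ) * b.factorial ≤ (d + 1).factorial := by
      exact_mod_cast hb ▸ Nat.le_of_dvd (Nat.factorial_pos _) (Nat.factorial_mul_factorial_dvd_factorial_add a b)
    have f4 := E_mul B0 (a := a + 1) (b := b + 1) (by omega) (by omega)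
    rw [show a + 1 + (b + 1) = d + 3 by omega] at f4
    have p1 := npos n1 hn (a + 1) (by omega)
    have p2 := npos n1 hn (b + 1) (by omega)
    have p3 := E0 (a + 1)
    have p4 := E0 (b + 1)
    rw [mul_assoc]
    refine mul_le_mul f2 ?_ (by positivity) (by positivity)
    calc _ ≤ 2 * (E B (a + 1) * (a.factorial : ℝ) ^ 4) * (2 * (E B (b + 1) * (b.factorial : ℝ) ^ 4)) :=
          mul_le_mul (i2 a (by omega)) (i2 b (by omega)) p2.le (by positivity)
      _ = 4 * (E B (a + 1) * E B (b + 1)) * (a.factorial * b.factorial : ℝ) ^ 4 := by ring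
      _ ≤ _ := by gcongr; exact (E0 _).le
  rw [card_erase_of_mem (by simp), Nat.card_Ico, show d + 3 - 1 - 1 = d + 1 by omega, nsmul_eq_mul] at s1
  have s2 := mul_le_mul_of_nonneg_left (ih d (by omega))
    (show 0 ≤ B * ((d + 1) * (d + 2)) ^ 4 by positivity)
  rw [show d + 1 + 1 + 1 = d + 3 by ring, split n1 hn, ← hB]
  refine (add_le_add s2 s1).trans ?_
  rw [e1]
  simp only [Nat.factorial_succ]
  push_cast
  have p5 : 0 < B * E B (d + 1) * (d.factorial : ℝ) ^ 4 * (d + 1) ^ 4 := by have := E0 (d + 1); positivity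
  have p6 : ((d : ℝ) + 1) * (d + 3) ≤ (1 / (d + 1) - 1 / (d + 1 + 1 + 1)) * (d + 2) ^ 4 := by
    rw [div_sub_div _ _ (by positivity) (by positivity), div_mul_eq_mul_div, le_div_iff₀ (by positivity)]
    have : (0 : ℝ) ≤ d := by positivity
    nlinarith [sq_nonneg (d : ℝ), mul_nonneg this (sq_nonneg (d : ℝ)), sq_nonneg ((d : ℝ) ^ 2)]
  nlinarith [mul_le_mul_of_nonneg_left p6 p5.le]

lemma fin (j : ℕ) (hj : 1 ≤ j) : n (2 * j + 2) ^ (2 * j + 1) < n (2 * j + 1) ^ (2 * j + 2) := by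
  have q := n2 n1 hn
  have u := upp n1 hn (2 * j + 1)
  have l := low n1 hn j
  set B := 10 ^ 15 * n 2
  have B0 : 10 ^ 15 ≤ B := by linarith
  have e : E B (2 * j + 1 + 1) = B ^ j * 10 := by
    unfold E; rw [show (2 * j + 1 + 1 - 1) / 2 = j by omega, if_pos (by omega)]
  set d := 2 * j + 1 with hd
  have fd : (d.factorial : ℝ) = d * (2 * j).factorial := by rw [hd, Nat.factorial_succ]; push_cast; ring
  have u2 : n (d + 1) ≤ 20 * d ^ 4 * (B ^ j * ((2 * j).factorial : ℝ) ^ 4) := by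
    refine u.trans ((mul_le_mul_of_nonneg_right (sub_le_self 2 (by positivity))
      (by rw [e]; positivity)).trans_eq ?_)
    rw [e, fd]; ring
  have a1 : (d : ℝ) ^ d ≤ 3 ^ d * d.factorial := by
    have := Real.pow_div_factorial_le_exp (x := d) (by positivity) d
    rw [div_le_iff₀ (by positivity), ← Real.exp_one_pow] at this
    exact this.trans (by gcongr; exact (Real.exp_one_lt_d9.trans (by norm_num)).le)
  have a2 : (d : ℝ) ≤ 2 ^ d := by exact_mod_cast (Nat.lt_two_pow_self).le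
  have a3 : (20 * (d : ℝ) ^ 4) ^ d < B ^ j * ((2 * j).factorial : ℝ) ^ 4 := by
    calc (20 * (d : ℝ) ^ 4) ^ d = 20 ^ d * ((d : ℝ) ^ d) ^ 4 := by
          rw [mul_pow, ← pow_mul, ← pow_mul, mul_comm 4]
      _ ≤ 20 ^ d * (3 ^ d * (2 ^ d * ((2 * j).factorial : ℝ))) ^ 4 := by
          gcongr; exact a1.trans (by rw [fd]; gcongr)
      _ = 25920 ^ d * ((2 * j).factorial : ℝ) ^ 4 := by
          rw [show (25920 : ℝ) = 20 * (3 * 2) ^ 4 by norm_num]
          simp only [mul_pow, ← pow_mul, mul_comm 4]; ring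
      _ < _ := by
          gcongr
          calc (25920 : ℝ) ^ d ≤ 25920 ^ (3 * j) := pow_le_pow_right₀ (by norm_num) (by omega)
            _ = (25920 ^ 3) ^ j := pow_mul _ _ _
            _ < B ^ j := pow_lt_pow_left₀ (by linarith) (by norm_num) (by omega)
  calc n (d + 1) ^ d ≤ (20 * d ^ 4 * (B ^ j * ((2 * j).factorial : ℝ) ^ 4)) ^ d :=
        pow_le_pow_left₀ (npos n1 hn _ (by omega)).le u2 _
    _ < (B ^ j * ((2 * j).factorial : ℝ) ^ 4) ^ (d + 1) := by
        rw [mul_pow, pow_succ' _ d]; gcongr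
    _ ≤ _ := pow_le_pow_left₀ (by positivity) l _

end

theorem result : ∃ P Q : MvPolynomial (Fin 2) ℚ,
    (∀ a b : ℕ, 1 ≤ a → 1 ≤ b → aeval ![(a : ℝ), b] Q ≠ 0 ∧
      0 < aeval ![(a : ℝ), b] P / aeval ![(a : ℝ), b] Q) ∧
    (∃ k L : ℝ, 0 < k ∧ 0 < L ∧ Tendsto (fun x : ℕ × ℕ =>
      aeval ![(x.1 : ℝ), x.2] P / aeval ![(x.1 : ℝ), x.2] Q / ((x.1 : ℝ) * x.2 / (x.1 + x.2)) ^ k)
      (atTop ×ˢ atTop) (𝓝 L)) ∧
    ∀ n : ℕ → ℝ, n 1 = 1 → (∀ d, 2 ≤ d → n d = ∑ a ∈ Ico 1 d,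
      aeval ![(a : ℝ), (d - a : ℕ)] P / aeval ![(a : ℝ), (d - a : ℕ)] Q * n a * n (d - a)) →
      ∀ D, ∃ d ≥ D, n (d + 1) ^ (1 / (d + 1 : ℝ)) < n d ^ (1 / (d : ℝ)) := by
  have e : ∀ x y : ℝ, aeval ![x, y] PP / aeval ![x, y] QQ = F x y := fun x y => by
    simp [PP, QQ, hh, F, h, map_ofNat]
  refine ⟨PP, QQ, fun a b ha hb => ⟨?_, ?_⟩, ⟨1, 1, one_pos, one_pos, ?_⟩, fun n n1 hn D => ?_⟩
  · simp only [QQ, hh, map_mul, map_add, map_pow, map_sub, map_ofNat, map_one, aeval_X]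
    simp only [Matrix.cons_val_zero, Matrix.cons_val_one]
    positivity
  · rw [e]; exact Fpos (by exact_mod_cast ha) (by exact_mod_cast hb)
  · simp only [e, Real.rpow_one]
    have t1 : Tendsto (fun x : ℕ × ℕ => (x.1 : ℝ)) (atTop ×ˢ atTop) atTop :=
      tendsto_natCast_atTop_atTop.comp tendsto_fst
    have t2 : Tendsto (fun x : ℕ × ℕ => (x.2 : ℝ)) (atTop ×ˢ atTop) atTop :=
      tendsto_natCast_atTop_atTop.comp tendsto_snd
    have t3 := (tendsto_const_nhds (x := (1 : ℝ))).sub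
      ((tendsto_atTop_add_const_right _ (-2) t1).inv_tendsto_atTop.pow 2)
    have t4 := (tendsto_const_nhds (x := (1 : ℝ))).add (t1.inv_tendsto_atTop.add t2.inv_tendsto_atTop)
    simp only [add_zero, sub_zero, ne_eq, OfNat.ofNat_ne_zero, not_false_eq_true, zero_pow] at t3 t4
    refine tendsto_of_tendsto_of_tendsto_of_le_of_le' t3 t4 ?_ ?_ <;>
      filter_upwards [t1.eventually_ge_atTop 3, t2.eventually_ge_atTop 1] with x h1 h2 <;>
      have := Fb (x := x.1) (y := x.2) (by linarith) h2 (by nlinarith)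
    · rw [le_div_iff₀ (by positivity)]
      refine le_trans (le_of_eq ?_) this.1
      simp [sub_eq_add_neg, div_eq_mul_inv]; ring
    · rw [div_le_iff₀ (by positivity)]
      refine this.2.trans_eq ?_
      simp only [Pi.inv_apply]; field_simp; ring
  simp only [e] at hn
  refine ⟨2 * (D + 1) + 1, by omega, ?_⟩
  have h := fin n1 hn (D + 1) (by omega)
  have p1 := npos n1 hn (2 * (D + 1) + 1) (by omega)
  have p2 := npos n1 hn (2 * (D + 1) + 1 + 1) (by omega)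
  rw [show 2 * (D + 1) + 2 = 2 * (D + 1) + 1 + 1 by ring] at h
  generalize hd : 2 * (D + 1) + 1 = d at *
  have d0 : (d : ℝ) ≠ 0 := by rw [← hd]; positivity
  refine lt_of_pow_lt_pow_left₀ (d * (d + 1)) (by positivity) ?_
  rw [← Real.rpow_natCast, ← Real.rpow_natCast, ← Real.rpow_mul p1.le, ← Real.rpow_mul p2.le]
  rw [← Real.rpow_natCast, ← Real.rpow_natCast] at h
  rwa [show 1 / (d + 1 : ℝ) * (d * (d + 1) : ℕ) = d by push_cast; field_simp,
    show 1 / (d : ℝ) * (d * (d + 1) : ℕ) = (d + 1 : ℕ) by push_cast; field_simp]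

end Pool.Agent.Results.MP_0f9b8a_co.Counter
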